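import Pool.Agent.R542.SR.Mem

/-!
# Star colouring with `k` colours of `(2k - 4)`-regular graphs is NP-complete

For every `k ≥ 5`, the problem whether a graph has a star colouring with `k` colours is in NP, and
it is NP-hard for `(2k - 4)`-regular graphs. (The case `k = 4` is known.)
-/

set_option autoImplicit false

namespace Pool.Agent.Results.MP_b4e77d_lc.RegularStarColouring

open Pool.Agent.NPC Pool.Agent.H692R2 Pool.Agent.H673R2 Pool.Agent.NPC.R542.SR

theorem result (k : ℕ) (hk : 5 ≤ k) :
    InNPP (StarColourable k) ∧ NPHardOn (Regular (2 * k - 4)) (StarColourable k) := by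
  refine ⟨inNP k (by omega), ?_⟩
  obtain ⟨p, rfl⟩ : ∃ p, k = p + 2 := ⟨k - 2, by omega⟩
  have e : 2 * (p + 2) - 4 = 2 * p := by omega
  rw [e]
  intro L hL
  obtain ⟨f, h1, h2, h3⟩ := hard p (by omega) L hL
  exact ⟨f, h1, fun x => (h2 x).1, h3⟩

end Pool.Agent.Results.MP_b4e77d_lc.RegularStarColouring
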